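import Pool.Agent.L5helper65.SL.Sub

/-!
# Centralizers of transvections, and subgroups with a transvection, in Zariski dense and in profinitely dense subgroups of `SL(n, ℤ)`

Let `n ≥ 3` and let `H` be a Zariski dense subgroup of infinite index of `SL(n, ℤ)`, or a profinitely
dense subgroup `H ≠ SL(n, ℤ)`, for instance a subgroup which contradicts the Grothendieck rigidity of
`SL(n, ℤ)`, or a maximal subgroup of infinite index. Let `u` be a transvection in `H`. We prove: for every
subgroup `S` of `H` which contains `u`, the group `⟨u⟩` has finite index in `S`, or `u` and one of its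
conjugates `s u s⁻¹`, `s` in `S`, freely generate a free group of rank two.

In particular `⟨u⟩` has finite index in its centralizer `C_H(u)`, in its normalizer and in its
commensurator in `H`, and a subgroup of `H` which contains a transvection and which does not contain a
free group of rank two, for instance an amenable or a solvable subgroup, is virtually cyclic. For `n = 3`
we prove that `⟨u⟩` has finite index in `C_H(u)` for every unipotent element `u ≠ 1` of `H`.

Equivalently: let `H` be Zariski dense, and let `u` be a transvection in `H` such that `⟨u⟩` has infinite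
index in `C_H(u)`, or in some subgroup `S ∋ u` of `H` without such a free group. Then `H` has finite index
in `SL(n, ℤ)`. If `H` is dense in the profinite topology then `H = SL(n, ℤ)`. There is no condition on
the elements of `C_H(u)`, which may be unipotent, semisimple or mixed.

Outline of the proof. Let `u = 1 + v φ`. The main step is that each `g` in `C_H(u)` has a power `gᵏ`,
`k ≥ 1`, in `⟨u⟩`.

(1) Suppose that `(gᵏ - 1) ^ 2 ≠ 0` for all `k ≥ 1`. We may assume that `g v = v` and `φ g = φ`. For `h`
in `H` let `w = h v` and `ψ = φ h⁻¹` and `γ = φ(w) ψ(v)`. The number `ψ(gᵏ w)` is divisible by `γ` if `gᵏ`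
is congruent to `1` modulo `γ`. For such `k` there is a power `uˢ` such that `q = uˢ gᵏ` satisfies
`ψ(q w) = 0`, and then `ψ(q⁻¹ w) = ψ((gᵏ + g⁻ᵏ) w)`. If this number is not zero then the transvections
`1 + w ψ` and `q (1 + w ψ) q⁻¹` generate a Heisenberg group, and `H` contains the elementary matrices of
some level. If it is zero for all such `k` and all `h` in general position, then, since the span of the
matrices `gᵏ + g⁻ᵏ`, `k` in `M ℤ`, does not depend on `M` for suitable multiples `M`, the density of `H`
shows that one of these matrices is a scalar, so that `(gᵏ - 1) ^ 2 = 0`.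

(2) Otherwise we may assume that `g = 1 + A`, `A ^ 2 = 0`, and then `A v = 0` and `φ A = 0`. For `h` in `H`
let `q = h⁻¹ uˢ gᵏ h` with `k = φ(h v) φ(h⁻¹ v)` and `s = - φ(h⁻¹ A h v)`. Then `φ(q v) = φ(q⁻¹ v) = 0`,
so `u` commutes with the transvection `y = q u q⁻¹`, and if `h` is in general position then `q v` and `v`
are independent. If `φ q⁻¹` and `φ` are proportional, `u` and `y` generate a group `ℤ²` of transvections
with a common functional. Otherwise the same construction, applied to `u` and `y = 1 + w ψ`, gives a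
conjugate `z = 1 + v' φ'` of `u` which commutes with `u` and has `ψ(v') ≠ 0 ≠ φ'(w)`. Now `yᵃ z`
commutes with `u` and is hyperbolic for `a = 1` or `a = -1`, and (1) applies.

(3) By Minkowski's lemma an element of `C_H(u)` congruent to `1` modulo `3` is `1 + t v φ` for a rational
`t`, so `⟨u⟩` has finite index in `C_H(u)`. If `s` is in `S` then by `PairsOfTransvections` the
transvections `u` and `s u s⁻¹` have a common power or freely generate a free group. In the first case
`v` and `φ` are eigenvectors of `s`, and `s u s⁻¹` is `u` or `u⁻¹`.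

(4) For `n = 3` a unipotent element `u` is a transvection, up to powers, or it is regular, and then the
centralizer of `u` is virtually a unipotent group `ℤ²`, which contains a transvection of the form
`1 + k (u - 1) ^ 2`.
-/

set_option autoImplicit false

namespace Pool.Agent.Results.MP_a2a22c_al.CentralizersOfTransvections

open Matrix

/-- The group `SL(n, ℤ)`. -/
abbrev SLZ (n : ℕ) : Type := SpecialLinearGroup (Fin n) ℤ

/-- The matrix of `g`. -/
abbrev mat {n : ℕ} (g : SLZ n) : Matrix (Fin n) (Fin n) ℤ := g.val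

/-- `x` is a transvection: `x = 1 + v φ` for a column `v ≠ 0` and a row `φ ≠ 0` with `φ(v) = 0`. -/
def IsTransvection {n : ℕ} (x : SLZ n) : Prop :=
  ∃ v φ : Fin n → ℤ, v ≠ 0 ∧ φ ≠ 0 ∧ φ ⬝ᵥ v = 0 ∧ mat x = 1 + vecMulVec v φ

/-- `x` is unipotent: `x - 1` is nilpotent. -/
def IsUnipotent {n : ℕ} (x : SLZ n) : Prop := (mat x - 1) ^ n = 0

/-- `x` and `y` freely generate a free group of rank two. -/
def FreelyGenerate {n : ℕ} (x y : SLZ n) : Prop := Function.Injective (FreeGroup.lift ![x, y])

/-- `H` is Zariski dense: every polynomial in the coefficients (with rational coefficients) which is zero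
on `H` is zero on `SL(n, ℤ)`. -/
def ZariskiDense {n : ℕ} (H : Subgroup (SLZ n)) : Prop :=
  ∀ f ∈ Algebra.adjoin ℚ {f : SLZ n → ℚ | ∃ i j, f = fun g => ((g.1 i j : ℤ) : ℚ)},
    (∀ h ∈ H, f h = 0) → ∀ g, f g = 0

/-- `H` is dense in the profinite topology: it is mapped onto every finite quotient of `SL(n, ℤ)`. -/
def ProfinitelyDense {n : ℕ} (H : Subgroup (SLZ n)) : Prop :=
  ∀ (Q : Type) [Group Q] [Finite Q] (f : SLZ n →* Q), Function.Surjective f → ∀ q, ∃ h ∈ H, f h = q

/-- `H` is Zariski dense of infinite index, or profinitely dense and not `SL(n, ℤ)`. -/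
def Thin {n : ℕ} (H : Subgroup (SLZ n)) : Prop :=
  (ZariskiDense H ∧ H.index = 0) ∨ (ProfinitelyDense H ∧ H ≠ ⊤)

open Pool.Agent.L5helper65.SL in
theorem uni {x : SLZ 3} (h : (mat x - 1) ^ 3 = 0) : (qm x - 1) * (qm x - 1) * (qm x - 1) = 0 := by
  have h1 := congrArg (fun M => (Int.castRingHom ℚ).mapMatrix M) h
  simp only [map_pow, map_sub, map_one, map_zero] at h1
  rw [← pow_two, ← pow_succ]
  exact h1

open Pool.Agent.L5helper65.SL in
theorem thin_key {m : ℕ} {H : Subgroup (SLZ (m + 3))} (h : Thin H) :
    ZDense H ∧ ¬ ∃ p ≠ 0, Full H p := by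
  rcases h with ⟨hH, hi⟩ | ⟨hH, hi⟩
  · have hH' : ZDense H := hH
    refine ⟨hH', ?_⟩
    rintro ⟨p, hp, hf⟩
    exact finite_of_full hH' hp hf hi
  · have hH' : PDense H := pdense_of hH
    refine ⟨hH'.zdense, ?_⟩
    rintro ⟨p, hp, hf⟩
    exact hi (top_of_full hH' hp hf)

theorem result :
    (∀ n : ℕ, 3 ≤ n → ∀ H : Subgroup (SLZ n), Thin H →
      ∀ S : Subgroup (SLZ n), S ≤ H → ∀ u ∈ S, IsTransvection u →
        (Subgroup.zpowers u).relIndex S ≠ 0 ∨ ∃ s ∈ S, FreelyGenerate u (s * u * s⁻¹)) ∧
    (∀ H : Subgroup (SLZ 3), Thin H → ∀ u ∈ H, IsUnipotent u → u ≠ 1 →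
      (Subgroup.zpowers u).relIndex (H ⊓ Subgroup.centralizer {u}) ≠ 0) := by
  refine ⟨?_, ?_⟩
  · rintro n hn H hH S hS u hu ⟨v, φ, hv, hφ, h0, eu⟩
    obtain ⟨m, rfl⟩ : ∃ m, n = m + 3 := ⟨n - 3, by omega⟩
    obtain ⟨hZ, hno⟩ := thin_key hH
    by_cases hf : ∃ s ∈ S, FreelyGenerate u (s * u * s⁻¹)
    · exact Or.inr hf
    · push Not at hf
      exact Or.inl (Pool.Agent.L5helper65.SL.sub_index hZ hno (by simp) hS hu hv hφ h0 eu hf)
  · rintro H hH u hu uu hu1
    obtain ⟨hZ, hno⟩ := thin_key (m := 0) hH
    exact Pool.Agent.L5helper65.SL.uni_index hZ hno hu (uni uu) hu1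

end Pool.Agent.Results.MP_a2a22c_al.CentralizersOfTransvections
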