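import Pool.Agent.L5helper41.GR.Act
import Pool.Agent.L5helper41.GR.SmallRing
import Pool.Agent.L5helper41.GR.SSRigid
import Mathlib

/-!
# Linear representations of the groups all of whose finite quotients are quotients of `SL(n, ℤ)`

Let `n ≥ 3` and let `Λ` be a finitely generated group such that every finite quotient of `Λ` is a
quotient of `SL(n, ℤ)`.  (Residual finiteness is not assumed, and the finite quotients of `Λ` may be
fewer than those of `SL(n, ℤ)`; `SL(n, ℤ[1/N])` is an example, and so is every counterexample to the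
profinite rigidity of `SL(n, ℤ)`.)

1. `Λ` acts trivially on every module with fewer than `n` generators over a commutative ring.
2. `Λ` acts trivially on every residually nilpotent group with fewer than `n` generators.

Let `Γ` be a subgroup of finite index `s` of `Λ`.

3. Every homomorphism `Γ → GL_d(R)`, `d < n`, `R` a commutative ring, has finite image; if `R` is a
   field of characteristic zero, then the image has at most `|SL(n, ℤ/(s d)!)|` elements.
4. Every homomorphism `Γ → GL_d(R)`, `R` a commutative ring with `N = 0` for some `N ≥ 1`, has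
   finite image; if `R` is a field of characteristic `p`, then the image has at most
   `|SL(n, ℤ/((s d)! p ^ (s d)))|` elements.
5. (`Γ` is SS-rigid.)  For every field `K` of characteristic zero and every `d` the homomorphisms
   `ρ : Γ → GL_d(K)` have only finitely many characters `γ ↦ charpoly (ρ γ)`, and the coefficients
   of these polynomials are algebraic numbers.
-/

namespace Pool.Agent.Results.MP_a2a22c_al.LinearRepresentations

open Matrix Polynomial

theorem result (n : ℕ) (hn : 3 ≤ n) (Λ : Type) [Group Λ] (hfg : Group.FG Λ)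
    (hq : ∀ (Q : Type) [Group Q] [Finite Q], (∃ f : Λ →* Q, Function.Surjective f) →
      ∃ f : SpecialLinearGroup (Fin n) ℤ →* Q, Function.Surjective f) :
    (∀ (R : Type) [CommRing R] (M : Type) [AddCommGroup M] [Module R M] (s : Finset M),
      s.card < n → Submodule.span R (s : Set M) = ⊤ →
        ∀ (ρ : Λ →* Module.End R M) (g : Λ) (x : M), ρ g x = x) ∧
    (∀ (G : Type) [Group G] (s : Finset G), s.card < n → Subgroup.closure (s : Set G) = ⊤ →
      (⨅ k, (⊤ : Subgroup G).lowerCentralSeries k) = ⊥ →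
        ∀ (φ : Λ →* MulAut G) (g : Λ) (x : G), φ g x = x) ∧
    (∀ Γ : Subgroup Λ, Γ.index ≠ 0 →
      (∀ (R : Type) [CommRing R] (d : ℕ), d < n → ∀ ρ : Γ →* GL (Fin d) R, Finite ρ.range) ∧
      (∀ (K : Type) [Field K] [CharZero K] (d : ℕ), d < n → ∀ ρ : Γ →* GL (Fin d) K,
        Nat.card ρ.range ≤
          Nat.card (SpecialLinearGroup (Fin n) (ZMod (Γ.index * d).factorial))) ∧
      (∀ (R : Type) [CommRing R] (N : ℕ), N ≠ 0 → (N : R) = 0 →
        ∀ (d : ℕ) (ρ : Γ →* GL (Fin d) R), Finite ρ.range) ∧
      (∀ (p : ℕ), p.Prime → ∀ (K : Type) [Field K] [CharP K p] (d : ℕ) (ρ : Γ →* GL (Fin d) K),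
        Nat.card ρ.range ≤ Nat.card
          (SpecialLinearGroup (Fin n) (ZMod ((Γ.index * d).factorial * p ^ (Γ.index * d))))) ∧
      (∀ (K : Type) [Field K] [CharZero K] (d : ℕ),
        (Set.range fun (ρ : Γ →* GL (Fin d) K) (γ : Γ) => (ρ γ).val.charpoly).Finite ∧
        ∀ (ρ : Γ →* GL (Fin d) K) (γ : Γ) (i : ℕ),
          IsAlgebraic ℤ ((ρ γ).val.charpoly.coeff i))) := by
  refine ⟨?_, ?_, ?_⟩
  · intro R _ M _ _ s hs hspan ρ g x
    exact L5helper41.GR.trivial_module hn hfg hq s hs hspan ρ g x
  · intro G _ s hs hgen hres φ g x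
    have h1 := L5helper41.GR.trivial_aut hn hfg hq s hs hgen (by
      intro x hx
      have h2 : x ∈ ⨅ k, (⊤ : Subgroup G).lowerCentralSeries k := Subgroup.mem_iInf.2 hx
      rw [hres] at h2
      exact Subgroup.mem_bot.1 h2) φ
    rw [h1]
    rfl
  · intro Γ hΓ
    refine ⟨?_, ?_, ?_, ?_, ?_⟩
    · intro R _ d hd ρ
      exact L5helper41.GR.small_ring hn (by rwa [Fintype.card_fin]) hfg hq Γ hΓ ρ
    · intro K _ _ d hd ρ
      have h1 := (L5helper41.GR.small_charZero (ι := Fin d) hn (by rwa [Fintype.card_fin]) hfg hq Γ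
        hΓ ρ).2
      rwa [Fintype.card_fin] at h1
    · intro R _ N hN0 hN d ρ
      exact L5helper41.GR.finite_ring_sub hn hfg hq Γ hΓ N hN0 hN ρ
    · intro p hp K _ _ d ρ
      have h1 := (L5helper41.GR.bound_field_sub (ι := Fin d) hn hfg hq Γ hΓ p hp
        (CharP.cast_eq_zero K p) ρ).2
      rwa [Fintype.card_fin] at h1
    · intro K _ _ d
      refine ⟨L5helper41.GR.ss_rigid hn hfg hq Γ hΓ K, ?_⟩
      intro ρ γ i
      obtain ⟨P, hP0, hP⟩ := L5helper41.GR.rigid (ι := Fin d) hn hfg hq Γ hΓ K γ i
      exact ⟨P, hP0, hP ρ⟩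

end Pool.Agent.Results.MP_a2a22c_al.LinearRepresentations
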