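import Pool.Agent.L5helper65.SL.Free

/-!
# Pairs of transvections in Zariski dense and in profinitely dense subgroups of `SL(n, ℤ)`

Let `n ≥ 3` and let `H` be a Zariski dense subgroup of infinite index of `SL(n, ℤ)`, or a profinitely
dense subgroup `H ≠ SL(n, ℤ)`, for instance a subgroup which contradicts the Grothendieck rigidity of
`SL(n, ℤ)`, or a maximal subgroup of infinite index. Then

(1) any two transvections `x` and `y` in `H` have a common power or freely generate a free group of rank
two, and in the second case `|tr(x y) - n| ≥ 5`;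

(2) some element of `SL(2, ℤ)`, embedded in the upper left corner of `SL(n, ℤ)`, has no power in `H`; so
`H` does not contain a subgroup of finite index of `SL(2, ℤ)`.

In other words: if `H` is Zariski dense and contains two transvections `x`, `y` without a common power
which do not freely generate a free group, or such that `|tr(x y) - n| ≤ 4`, then `H` has finite index;
if `H` is profinitely dense then `H = SL(n, ℤ)`. For instance, this is the case if `x y x = y x y`, or if
`x` and `y` commute, or if they generate a Heisenberg group. If `|tr(x y) - n| = 4` then `x` and `y`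
generate a free group, but still `H` has finite index.

Outline of the proof. Let `x = 1 + v φ` and `y = 1 + w ψ`, so that `tr(x y) = n + φ(w) ψ(v)`. Let `T` be
the set of the pairs `(v, φ)` of rational vectors with `φ(v) = 0` such that `1 + k v φ` is in `H` for
some `k ≠ 0`.

(a) If `(v, φ)`, `(w, ψ)` are in `T`, `ψ(v) = 0` and `φ(w) ≠ 0`, then `(v, ψ)` is in `T`: take the
commutator. (b) If `(v, χ₁)` and `(v, χ₂)` are in `T` and `χ₁`, `χ₂` are independent, then for `h` in `H`
some combination of `χ₁ h⁻¹`, `χ₂ h⁻¹` kills `v`. So (a) and the density of `H` show that `(v, φ)` is in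
`T` for all `φ` with `φ(v) = 0`. (c) If this is true for one vector `v ≠ 0` then for all vectors, and `H`
contains the elementary matrices of some level, hence a congruence subgroup (theorem of Bass, Lazard,
Serre and Mennicke, starting files). (d) If `H` contains transvections in all rational directions of a
plane, as `SL(2, ℤ)` does, then one of them can be used in (a) for every `h` in `H`. (e) If
`0 < |φ(w) ψ(v)| ≤ 4` then the Euclidean algorithm shows that `x` and `y` generate a group with this
property for the plane of `v` and `w`; for the value `4` there is a third cusp, fixed by `(y x⁻¹) ^ 2` or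
by `(y x) ^ 2`. (f) If exactly one of `φ(w)` and `ψ(v)` is zero then (a) and (b) apply. (g) If both are
zero then `x` and `y` commute, and this is the case treated in `CentralizersOfTransvections`: the
transvection `x` has a conjugate `z` in `H` which commutes with `x` and such that `yᵃ z` is hyperbolic.
(h) If `|φ(w) ψ(v)| ≥ 4` then `x` and `y` play ping-pong with the sets of the vectors `z` such that
`|ψ(v)| φ(z)² < |φ(w)| ψ(z)²` and conversely.
-/

set_option autoImplicit false

namespace Pool.Agent.Results.MP_a2a22c_al.PairsOfTransvections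

open Matrix

/-- The group `SL(n, ℤ)`. -/
abbrev SLZ (n : ℕ) : Type := SpecialLinearGroup (Fin n) ℤ

/-- The matrix of `g`. -/
abbrev mat {n : ℕ} (g : SLZ n) : Matrix (Fin n) (Fin n) ℤ := g.val

/-- `x` is a transvection: `x = 1 + v φ` for a column `v ≠ 0` and a row `φ ≠ 0` with `φ(v) = 0`. -/
def IsTransvection {n : ℕ} (x : SLZ n) : Prop :=
  ∃ v φ : Fin n → ℤ, v ≠ 0 ∧ φ ≠ 0 ∧ φ ⬝ᵥ v = 0 ∧ mat x = 1 + vecMulVec v φ

/-- `x` and `y` have a common power. -/
def HaveCommonPower {n : ℕ} (x y : SLZ n) : Prop := ∃ k m : ℤ, k ≠ 0 ∧ m ≠ 0 ∧ x ^ k = y ^ m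

/-- `x` and `y` freely generate a free group of rank two. -/
def FreelyGenerate {n : ℕ} (x y : SLZ n) : Prop := Function.Injective (FreeGroup.lift ![x, y])

/-- `H` is Zariski dense: every polynomial in the coefficients (with rational coefficients) which is zero
on `H` is zero on `SL(n, ℤ)`. -/
def ZariskiDense {n : ℕ} (H : Subgroup (SLZ n)) : Prop :=
  ∀ f ∈ Algebra.adjoin ℚ {f : SLZ n → ℚ | ∃ i j, f = fun g => ((g.1 i j : ℤ) : ℚ)},
    (∀ h ∈ H, f h = 0) → ∀ g, f g = 0

/-- `H` is dense in the profinite topology: it is mapped onto every finite quotient of `SL(n, ℤ)`. -/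
def ProfinitelyDense {n : ℕ} (H : Subgroup (SLZ n)) : Prop :=
  ∀ (Q : Type) [Group Q] [Finite Q] (f : SLZ n →* Q), Function.Surjective f → ∀ q, ∃ h ∈ H, f h = q

/-- `g` is in the group `SL(2, ℤ)` in the upper left corner: outside of this corner its coefficients are
those of the identity. -/
def InCorner {n : ℕ} (g : SLZ n) : Prop :=
  ∀ i j : Fin n, 2 ≤ i.val ∨ 2 ≤ j.val → mat g i j = if i = j then 1 else 0

theorem result (n : ℕ) (hn : 3 ≤ n) (H : Subgroup (SLZ n))
    (h : (ZariskiDense H ∧ H.index = 0) ∨ (ProfinitelyDense H ∧ H ≠ ⊤)) :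
    (∀ x ∈ H, ∀ y ∈ H, IsTransvection x → IsTransvection y →
      HaveCommonPower x y ∨ (FreelyGenerate x y ∧ 5 ≤ |(mat (x * y)).trace - n|)) ∧
    ∃ g : SLZ n, InCorner g ∧ ∀ k : ℕ, k ≠ 0 → g ^ k ∉ H := by
  obtain ⟨m, rfl⟩ : ∃ m, n = m + 3 := ⟨n - 3, by omega⟩
  have key : Pool.Agent.L5helper65.SL.ZDense H ∧ ¬ ∃ p ≠ 0, Pool.Agent.L5helper65.SL.Full H p := by
    rcases h with ⟨hH, hi⟩ | ⟨hH, hi⟩
    · have hH' : Pool.Agent.L5helper65.SL.ZDense H := hH
      refine ⟨hH', ?_⟩
      rintro ⟨p, hp, hf⟩
      exact Pool.Agent.L5helper65.SL.finite_of_full hH' hp hf hi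
    · have hH' : Pool.Agent.L5helper65.SL.PDense H := Pool.Agent.L5helper65.SL.pdense_of hH
      refine ⟨hH'.zdense, ?_⟩
      rintro ⟨p, hp, hf⟩
      exact hi (Pool.Agent.L5helper65.SL.top_of_full hH' hp hf)
  obtain ⟨hZ, hno⟩ := key
  refine ⟨?_, ?_⟩
  · rintro x hx y hy ⟨v, φ, hv, hφ, h1, ex⟩ ⟨w, ψ, hw, hψ, h2, ey⟩
    by_cases hc : HaveCommonPower x y
    · exact Or.inl hc
    right
    have ex' := Pool.Agent.L5helper65.SL.cv_qm ex
    have ey' := Pool.Agent.L5helper65.SL.cv_qm ey
    have q1 : Pool.Agent.L5helper65.SL.cv φ ⬝ᵥ Pool.Agent.L5helper65.SL.cv v = 0 := by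
      rw [Pool.Agent.L5helper65.SL.cv_dot, h1, Int.cast_zero]
    have q2 : Pool.Agent.L5helper65.SL.cv ψ ⬝ᵥ Pool.Agent.L5helper65.SL.cv w = 0 := by
      rw [Pool.Agent.L5helper65.SL.cv_dot, h2, Int.cast_zero]
    have hind : ∀ k l : ℤ, y ^ k = x ^ l → k = 0 := by
      intro k l h3
      by_contra hk
      have hl : l ≠ 0 := by
        rintro rfl
        rw [zpow_zero] at h3
        have h4 := congrArg Pool.Agent.L5helper65.SL.qm h3
        rw [Pool.Agent.L5helper65.SL.qm_zpow ey' (Pool.Agent.L5helper65.SL.vv_sq q2),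
          Pool.Agent.L5helper65.SL.qm_one] at h4
        have h5 : (k : ℚ) • vecMulVec (Pool.Agent.L5helper65.SL.cv w)
            (Pool.Agent.L5helper65.SL.cv ψ) = 0 := by
          have h6 : (1 : Matrix (Fin (m + 3)) (Fin (m + 3)) ℚ) + (k : ℚ) •
              vecMulVec (Pool.Agent.L5helper65.SL.cv w) (Pool.Agent.L5helper65.SL.cv ψ) = 1 + 0 := by
            rw [h4, add_zero]
          exact add_left_cancel h6
        obtain ⟨i, hi⟩ : ∃ i, w i ≠ 0 := Function.ne_iff.1 hw
        obtain ⟨j, hj⟩ : ∃ j, ψ j ≠ 0 := Function.ne_iff.1 hψ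
        have h7 := congrFun (congrFun h5 i) j
        have h8 : (k : ℚ) * ((w i : ℚ) * (ψ j : ℚ)) = 0 := h7
        have h9 : k * (w i * ψ j) = 0 := by exact_mod_cast h8
        exact mul_ne_zero hk (mul_ne_zero hi hj) h9
      exact hc ⟨l, k, hl, hk, h3.symm⟩
    have htr : (mat (x * y)).trace - ((m + 3 : ℕ) : ℤ) = (φ ⬝ᵥ w) * (ψ ⬝ᵥ v) := by
      have h3 : mat (x * y) = mat x * mat y := rfl
      rw [h3, ex, ey]
      simp only [add_mul, mul_add, one_mul, mul_one, vecMulVec_mul_vecMulVec, trace_add, trace_one,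
        trace_vecMulVec, dotProduct_smul, smul_eq_mul, Fintype.card_fin]
      rw [dotProduct_comm v φ, h1, dotProduct_comm w ψ, h2, dotProduct_comm v ψ]
      ring
    have hlarge : 5 ≤ |(φ ⬝ᵥ w) * (ψ ⬝ᵥ v)| := by
      by_contra hcon
      apply hno
      exact Pool.Agent.L5helper65.SL.full_pair hZ (by simp) hx hy hv hφ hw hψ h1 h2 ex ey hind
        (by omega)
    refine ⟨?_, by rw [htr]; exact hlarge⟩
    refine Pool.Agent.L5helper65.SL.free_pair ex' ey' q1 q2 rfl rfl ?_
    rw [Pool.Agent.L5helper65.SL.cv_dot, Pool.Agent.L5helper65.SL.cv_dot, mul_comm]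
    have : (5 : ℚ) ≤ ((|(φ ⬝ᵥ w) * (ψ ⬝ᵥ v)| : ℤ) : ℚ) := by exact_mod_cast hlarge
    push_cast at this
    linarith
  · by_contra hcon
    push Not at hcon
    apply hno
    refine Pool.Agent.L5helper65.SL.full_corner (a := 0) (b := 1) hZ (by simp) (by simp) ?_
    intro g hg
    have key2 : ∀ i : Fin (m + 3), 2 ≤ i.val → i ≠ 0 ∧ i ≠ 1 := by
      intro i hi
      constructor
      · rintro rfl
        simp at hi
      · rintro rfl
        simp at hi
    refine hcon g ?_
    rintro i j (hi | hj)
    · exact hg i j (Or.inl (key2 i hi))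
    · exact hg i j (Or.inr (key2 j hj))

end Pool.Agent.Results.MP_a2a22c_al.PairsOfTransvections
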