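import Pool.Agent.L5helper66.PR.Fab

set_option autoImplicit false

/-!
# Splittings of the groups with the same finite quotients as `SL(n, ℤ)`

Let `n ≥ 3` and let `Λ` be a finitely generated group with the same finite quotients as `SL(n, ℤ)`.
Suppose that `Λ` is the amalgamated product of two subgroups `A` and `B` over `C = A ⊓ B`. Then, up to
exchanging `A` and `B`, the subgroup `B` maps onto every finite quotient of `Λ`, and `A` and `C` have
the same image in every finite quotient. So there are no splittings `A ≠ Λ ≠ B` if `C` is closed in the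
profinite topology, in particular if `C` is finite and `Λ` is residually finite.

The proof. (1) By the theorem of Bass, Lazard, Serre and Mennicke, a finite quotient of `SL(n, ℤ)` with
an abelian normal subgroup of index `k` has at most `|SL(n, ℤ/k²)|` elements. So the subgroups of finite
index of `Λ` have no nonzero homomorphisms to `ℚ`. (2) Let `Q = Λ/N` be a finite quotient, and let `V`
be the space of the functions `Q → ℚ`. For `v ∈ V` invariant under `C` there is a derivation
`Λ → V` which vanishes on `A` and is the inner derivation of `v` on `B`. By (1) it vanishes on `N`, so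
it is inner, and `v` is the sum of a function invariant under `A` and one invariant under `B`.
(3) Counting dimensions: `[Q : C] + 1 = [Q : A] + [Q : B]` (for the images). Since `[Q : C]` is a
multiple of `[Q : A]` and of `[Q : B]`, one of the latter is `1` and the other is `[Q : C]`.
-/

namespace Pool.Agent.Results.MP_a2a22c_al.Splittings

/-- The same finite quotients. -/
def SameFiniteQuotients (G H : Type) [Group G] [Group H] : Prop :=
  ∀ (Q : Type) [Group Q] [Finite Q],
    (∃ f : G →* Q, Function.Surjective f) ↔ (∃ f : H →* Q, Function.Surjective f)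

/-- `Λ` is the amalgamated product of its subgroups `A` and `B` over `A ⊓ B` (universal property). -/
def IsAmalgam {Λ : Type} [Group Λ] (A B : Subgroup Λ) : Prop :=
  ∀ (H : Type) [Group H] (f : A →* H) (g : B →* H),
    (∀ (x : Λ) (hA : x ∈ A) (hB : x ∈ B), f ⟨x, hA⟩ = g ⟨x, hB⟩) →
    ∃! h : Λ →* H, (∀ a : A, h a = f a) ∧ ∀ b : B, h b = g b

/-- In every finite quotient `Λ ⧸ N` the image of `B` is everything, and the image of `A` is the image
of `A ⊓ B`. -/
def DenseFactor {Λ : Type} [Group Λ] (A B : Subgroup Λ) : Prop :=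
  ∀ N : Subgroup Λ, N.Normal → N.index ≠ 0 → B ⊔ N = ⊤ ∧ A ≤ (A ⊓ B) ⊔ N

/-- `C` is closed in the profinite topology. -/
def Closed {Λ : Type} [Group Λ] (C : Subgroup Λ) : Prop :=
  ∀ x : Λ, x ∉ C → ∃ N : Subgroup Λ, N.Normal ∧ N.index ≠ 0 ∧ x ∉ C ⊔ N

/-- Residually finite. -/
def ResiduallyFinite (Λ : Type) [Group Λ] : Prop :=
  ∀ g : Λ, g ≠ 1 → ∃ H : Subgroup Λ, H.index ≠ 0 ∧ g ∉ H

theorem closed_of_finite {Λ : Type} [Group Λ] (hΛ : ResiduallyFinite Λ) (C : Subgroup Λ)
    (hC : Finite C) : Closed C := by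
  classical
  intro x hx
  have h1 : ∀ c : C, ∃ N : Subgroup Λ, N.Normal ∧ N.index ≠ 0 ∧ (c : Λ)⁻¹ * x ∉ N := by
    intro c
    have hne : (c : Λ)⁻¹ * x ≠ 1 := by
      intro h
      apply hx
      have : x = c := by
        have h2 := congrArg (fun t => (c : Λ) * t) h
        simpa using h2
      rw [this]; exact c.2
    obtain ⟨H, hH, hm⟩ := hΛ _ hne
    have : H.FiniteIndex := ⟨hH⟩
    exact ⟨H.normalCore, inferInstance, (Subgroup.finiteIndex_normalCore H).index_ne_zero,
      fun h => hm (Subgroup.normalCore_le H h)⟩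
  choose N hN hi hm using h1
  have : Fintype C := Fintype.ofFinite C
  refine ⟨⨅ c, N c, Subgroup.normal_iInf_normal hN, ?_, ?_⟩
  · have hfi : ∀ c, (N c).FiniteIndex := fun c => ⟨hi c⟩
    exact (Subgroup.finiteIndex_iInf hfi).index_ne_zero
  · intro h
    have hnorm : (⨅ c, N c).Normal := Subgroup.normal_iInf_normal hN
    obtain ⟨c, hc, y, hy, hxy⟩ := Subgroup.mem_sup_of_normal_right.1 h
    apply hm ⟨c, hc⟩
    have : (c : Λ)⁻¹ * x = y := by rw [← hxy, inv_mul_cancel_left]
    show c⁻¹ * x ∈ _
    rw [this]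
    exact (Subgroup.mem_iInf.1 hy) _

theorem top_of_closed {Λ : Type} [Group Λ] {A B : Subgroup Λ} (hgen : A ⊔ B = ⊤)
    (h : DenseFactor A B) (hC : Closed (A ⊓ B)) : B = ⊤ := by
  have h1 : A ≤ B := by
    intro x hx
    by_contra hxB
    obtain ⟨N, hN, hi, hm⟩ := hC x (fun h => hxB h.2)
    exact hm ((h N hN hi).2 hx)
  rwa [sup_eq_right.2 h1] at hgen

/-- **Splittings of the groups with the same finite quotients as `SL(n, ℤ)`.** -/
theorem result (n : ℕ) (hn : 3 ≤ n) (Λ : Type) [Group Λ] (hfg : Group.FG Λ)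
    (hq : SameFiniteQuotients Λ (Matrix.SpecialLinearGroup (Fin n) ℤ)) (A B : Subgroup Λ)
    (hAB : IsAmalgam A B) :
    (DenseFactor A B ∨ DenseFactor B A) ∧
    (Closed (A ⊓ B) → A = ⊤ ∨ B = ⊤) ∧
    (ResiduallyFinite Λ → Finite ↥(A ⊓ B) → A = ⊤ ∨ B = ⊤) := by
  have hno := Pool.Agent.L5helper66.PR.noRat hn hfg (fun Q _ _ => (hq Q).1)
  have hgen := Pool.Agent.L5helper66.PR.IsAmalgam.gen hAB
  have h1 : DenseFactor A B ∨ DenseFactor B A := by
    rcases Pool.Agent.L5helper66.PR.dense hAB hno with h | h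
    · exact Or.inl fun N hN hi => ⟨(h N hN hi).2, (h N hN hi).1⟩
    · refine Or.inr fun N hN hi => ⟨(h N hN hi).2, ?_⟩
      rw [inf_comm]
      exact (h N hN hi).1
  have h2 : Closed (A ⊓ B) → A = ⊤ ∨ B = ⊤ := by
    intro hC
    rcases h1 with h | h
    · exact Or.inr (top_of_closed hgen h hC)
    · refine Or.inl (top_of_closed (by rwa [sup_comm]) h ?_)
      rwa [inf_comm]
  exact ⟨h1, h2, fun hRF hfin => h2 (closed_of_finite hRF _ hfin)⟩

end Pool.Agent.Results.MP_a2a22c_al.Splittings
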